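import Mathlib

set_option autoImplicit false

/-!
Minimal feedback arc sets: interior vertices of directed paths inside a minimal feedback arc set
have an in-arc outside the set, and a family of digraphs with large out-degree and girth in which
only hubs can be such interior vertices.
-/

namespace Pool.Agent.H933R4.FAS

open Relation

/-- `F` is an inclusion-minimal feedback arc set of `G`. -/
def IsMinFAS {V : Type} (G : Digraph V) (F : Set (V × V)) : Prop :=
  Minimal (fun S : Set (V × V) =>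
    (∀ e ∈ S, G.Adj e.1 e.2) ∧
    ∀ v : V, ¬ TransGen (fun a b => G.Adj a b ∧ (a, b) ∉ S) v v) F

/-- Split a walk avoiding `S \ {(v,w)}` at its uses of the arc `(v,w)`. -/
lemma split {V : Type} {G : Digraph V} {F : Set (V × V)} {v w a b : V}
    (h : TransGen (fun a b => G.Adj a b ∧ (a, b) ∉ F \ {(v, w)}) a b) :
    TransGen (fun a b => G.Adj a b ∧ (a, b) ∉ F) a b ∨
      (ReflTransGen (fun a b => G.Adj a b ∧ (a, b) ∉ F) a v ∧
        ReflTransGen (fun a b => G.Adj a b ∧ (a, b) ∉ F) w b) := by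
  classical
  induction h with
  | single h =>
    rename_i c
    by_cases hc : (a, c) ∈ F
    · right
      have : (a, c) = (v, w) := by
        by_contra hne
        exact h.2 ⟨hc, hne⟩
      obtain ⟨rfl, rfl⟩ := Prod.mk.inj this
      exact ⟨ReflTransGen.refl, ReflTransGen.refl⟩
    · left
      exact TransGen.single ⟨h.1, hc⟩
  | tail _ h ih =>
    rename_i c d _
    by_cases hc : (c, d) ∈ F
    · have hcd : (c, d) = (v, w) := by
        by_contra hne
        exact h.2 ⟨hc, hne⟩
      obtain ⟨rfl, rfl⟩ := Prod.mk.inj hcd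
      right
      rcases ih with ih | ih
      · exact ⟨ih.to_reflTransGen, ReflTransGen.refl⟩
      · exact ⟨ih.1, ReflTransGen.refl⟩
    · rcases ih with ih | ih
      · exact Or.inl (ih.tail ⟨h.1, hc⟩)
      · exact Or.inr ⟨ih.1, ih.2.tail ⟨h.1, hc⟩⟩

/-- If `(v,w)` lies in a minimal feedback arc set then some arc into `v` lies outside of it. -/
theorem exists_in_arc {V : Type} {G : Digraph V} (hl : ∀ v, ¬ G.Adj v v) {F : Set (V × V)}
    (hF : IsMinFAS G F) {v w : V} (hvw : (v, w) ∈ F) :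
    ∃ u, G.Adj u v ∧ (u, v) ∉ F := by
  classical
  have hpath : ReflTransGen (fun a b => G.Adj a b ∧ (a, b) ∉ F) w v := by
    by_contra hno
    have hS : (fun S : Set (V × V) =>
        (∀ e ∈ S, G.Adj e.1 e.2) ∧
        ∀ v : V, ¬ TransGen (fun a b => G.Adj a b ∧ (a, b) ∉ S) v v) (F \ {(v, w)}) := by
      refine ⟨fun e he => hF.1.1 e he.1, ?_⟩
      intro z hz
      rcases split hz with h | h
      · exact hF.1.2 z h
      · exact hno (h.2.trans h.1)
    have hle := hF.2 hS Set.sdiff_subset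
    exact (hle hvw).2 rfl
  have hne : w ≠ v := by
    rintro rfl
    exact hl _ (hF.1.1 _ hvw)
  rcases ReflTransGen.cases_tail hpath with h | ⟨u, _, hu⟩
  · exact absurd h.symm hne
  · exact ⟨u, hu.1, hu.2⟩

/-! ### The digraph -/

/-- Vertices: a hub index and a word of length at most `s` over `Fin k`. The pair `(x, [])` is the
hub `x`. -/
abbrev Vtx (k s : ℕ) : Type := Fin (k + 1) × {l : List (Fin k) // l.length ≤ s}

instance (k s : ℕ) : Finite {l : List (Fin k) // l.length ≤ s} :=
  (List.finite_length_le (Fin k) s).to_subtype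

/-- Arcs: a word of length less than `s` is extended by one letter; a word of length `s` leads to
every other hub. -/
def D (k s : ℕ) : Digraph (Vtx k s) where
  Adj u v := (u.2.1.length < s ∧ v.1 = u.1 ∧ ∃ a, v.2.1 = a :: u.2.1) ∨
    (u.2.1.length = s ∧ v.1 ≠ u.1 ∧ v.2.1 = [])

lemma D_adj {k s : ℕ} {u v : Vtx k s} : (D k s).Adj u v ↔
    (u.2.1.length < s ∧ v.1 = u.1 ∧ ∃ a, v.2.1 = a :: u.2.1) ∨
    (u.2.1.length = s ∧ v.1 ≠ u.1 ∧ v.2.1 = []) := Iff.rfl

lemma D_loopless {k s : ℕ} (v : Vtx k s) : ¬ (D k s).Adj v v := by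
  rw [D_adj]
  rintro (⟨_, _, a, h⟩ | ⟨_, h, _⟩)
  · have := congrArg List.length h
    simp at this
  · exact h rfl

/-- Interior vertices of paths in a minimal feedback arc set are hubs. -/
lemma hub_of_interior {k s : ℕ} {F : Set (Vtx k s × Vtx k s)} (hF : IsMinFAS (D k s) F)
    {u v w : Vtx k s} (h1 : (u, v) ∈ F) (h2 : (v, w) ∈ F) : v.2.1 = [] := by
  obtain ⟨u', hu', hn⟩ := exists_in_arc D_loopless hF h2
  have hu := hF.1.1 _ h1
  rcases hu' with ⟨_, e1, a, e2⟩ | ⟨_, _, e2⟩
  · rcases hu with ⟨_, f1, b, f2⟩ | ⟨_, _, f2⟩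
    · exfalso
      apply hn
      have : u' = u := by
        apply Prod.ext
        · rw [← e1, ← f1]
        · apply Subtype.ext
          have : a :: u'.2.1 = b :: u.2.1 := by rw [← e2, ← f2]
          exact (List.cons.inj this).2
      rw [this]; exact h1
    · exact f2
  · exact e2

theorem no_three {k s : ℕ} (hs : 1 ≤ s) {F : Set (Vtx k s × Vtx k s)} (hF : IsMinFAS (D k s) F)
    {a b c d : Vtx k s} (h1 : (a, b) ∈ F) (h2 : (b, c) ∈ F) (h3 : (c, d) ∈ F) : False := by
  have hb := hub_of_interior hF h1 h2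
  have hc := hub_of_interior hF h2 h3
  rcases hF.1.1 _ h2 with ⟨_, _, x, h⟩ | ⟨h, _, _⟩
  · simp only at h
    rw [hc] at h
    exact absurd h (by simp)
  · simp only at h
    rw [hb] at h
    simp at h
    omega

/-! ### Out-degrees -/

theorem outdeg {k s : ℕ} (v : Vtx k s) : Nat.card {w // (D k s).Adj v w} = k := by
  classical
  by_cases h : v.2.1.length < s
  · have e : Fin k ≃ {w // (D k s).Adj v w} :=
      { toFun := fun a => ⟨(v.1, ⟨a :: v.2.1, by simpa using h⟩), Or.inl ⟨h, rfl, a, rfl⟩⟩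
        invFun := fun w => w.1.2.1.head (by
          rcases w.2 with ⟨_, _, a, h'⟩ | ⟨h', _⟩
          · rw [h']; simp
          · omega)
        left_inv := fun a => by simp
        right_inv := fun w => by
          obtain ⟨⟨x, ⟨l, hl⟩⟩, hw⟩ := w
          rcases hw with ⟨_, h1, a, h2⟩ | ⟨h', _⟩
          · simp only at h1 h2
            subst h1 h2
            simp
          · omega }
    rw [← Nat.card_congr e, Nat.card_eq_fintype_card, Fintype.card_fin]
  · have hv : v.2.1.length = s := le_antisymm v.2.2 (not_lt.mp h)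
    have e : {x : Fin (k + 1) // x ≠ v.1} ≃ {w // (D k s).Adj v w} :=
      { toFun := fun x => ⟨(x.1, ⟨[], by simp⟩), Or.inr ⟨hv, x.2, rfl⟩⟩
        invFun := fun w => ⟨w.1.1, by
          rcases w.2 with ⟨h', _⟩ | ⟨_, h1, _⟩
          · exact absurd h' h
          · exact h1⟩
        left_inv := fun x => by simp
        right_inv := fun w => by
          obtain ⟨⟨x, ⟨l, hl⟩⟩, hw⟩ := w
          rcases hw with ⟨h', _⟩ | ⟨_, _, h2⟩
          · exact absurd h' h
          · simp only at h2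
            subst h2
            rfl }
    rw [← Nat.card_congr e, Nat.card_eq_fintype_card]
    simp

/-! ### Girth -/

/-- Along a walk from `v` the level and the hub index are determined for a while. -/
lemma walk {k s : ℕ} (p : ℕ → Vtx k s) (n : ℕ) (hp : ∀ i < n, (D k s).Adj (p i) (p (i + 1))) :
    ∀ j ≤ n, (j + (p 0).2.1.length ≤ s → (p j).1 = (p 0).1 ∧
        (p j).2.1.length = j + (p 0).2.1.length) ∧
      (s < j + (p 0).2.1.length → j + (p 0).2.1.length ≤ 2 * s + 1 →
        (p j).1 ≠ (p 0).1 ∧ (p j).2.1.length + s + 1 = j + (p 0).2.1.length) := by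
  intro j
  induction j with
  | zero =>
    intro _
    refine ⟨fun _ => ⟨rfl, by simp⟩, fun h => ?_⟩
    have := (p 0).2.2
    omega
  | succ j ih =>
    intro hj
    obtain ⟨ih1, ih2⟩ := ih (by omega)
    have ha := hp j (by omega)
    constructor
    · intro h
      obtain ⟨e1, e2⟩ := ih1 (by omega)
      rcases ha with ⟨_, f1, a, f2⟩ | ⟨f0, _, _⟩
      · refine ⟨by rw [f1, e1], ?_⟩
        rw [f2, List.length_cons, e2]; omega
      · omega
    · intro h h'
      by_cases hc : j + (p 0).2.1.length ≤ s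
      · obtain ⟨e1, e2⟩ := ih1 hc
        rcases ha with ⟨f0, _, _⟩ | ⟨f0, f1, f2⟩
        · omega
        · refine ⟨by rw [← e1]; exact f1, ?_⟩
          rw [f2, List.length_nil]; omega
      · obtain ⟨e1, e2⟩ := ih2 (by omega) (by omega)
        rcases ha with ⟨f0, f1, a, f2⟩ | ⟨f0, _, _⟩
        · refine ⟨by rw [f1]; exact e1, ?_⟩
          rw [f2, List.length_cons]; omega
        · omega

theorem girth {k s : ℕ} (p : ℕ → Vtx k s) (n : ℕ) (hn : 1 ≤ n) (h0 : p n = p 0)
    (hp : ∀ i < n, (D k s).Adj (p i) (p (i + 1))) : s + 2 ≤ n := by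
  by_contra hlt
  have hs := (p 0).2.2
  obtain ⟨h1, h2⟩ := walk p n hp n le_rfl
  rw [h0] at h1 h2
  by_cases hc : n + (p 0).2.1.length ≤ s
  · have := (h1 hc).2
    omega
  · exact (h2 (by omega) (by omega)).1 rfl

/-! ### Strong connectivity -/

lemma reach_word {k s : ℕ} (x : Fin (k + 1)) : ∀ (l : List (Fin k)) (hl : l.length ≤ s),
    ReflTransGen (D k s).Adj (x, ⟨[], by simp⟩) (x, ⟨l, hl⟩) := by
  intro l
  induction l with
  | nil => intro _; exact ReflTransGen.refl
  | cons a l ih =>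
    intro hl
    refine (ih (by simp at hl; omega)).tail (Or.inl ⟨?_, rfl, a, rfl⟩)
    simp at hl ⊢; omega

lemma reach_leaf {k s : ℕ} (hk : 1 ≤ k) (x : Fin (k + 1)) : ∀ (m : ℕ) (l : List (Fin k))
    (hl : l.length ≤ s), l.length + m = s →
    ∃ (l' : List (Fin k)) (hl' : l'.length ≤ s), l'.length = s ∧
      ReflTransGen (D k s).Adj (x, ⟨l, hl⟩) (x, ⟨l', hl'⟩) := by
  intro m
  induction m with
  | zero => intro l hl h; exact ⟨l, hl, by omega, ReflTransGen.refl⟩
  | succ m ih =>
    intro l hl h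
    obtain ⟨l', hl', e, hr⟩ := ih ((⟨0, hk⟩ : Fin k) :: l) (by simp; omega) (by simp; omega)
    have harc : (D k s).Adj (x, ⟨l, hl⟩) (x, ⟨(⟨0, hk⟩ : Fin k) :: l, by simp; omega⟩) :=
      Or.inl ⟨by simp only; omega, rfl, ⟨0, hk⟩, rfl⟩
    exact ⟨l', hl', e, ReflTransGen.head harc hr⟩

lemma reach_hub {k s : ℕ} (hk : 1 ≤ k) (v : Vtx k s) (y : Fin (k + 1)) (hy : y ≠ v.1) :
    ReflTransGen (D k s).Adj v (y, ⟨[], by simp⟩) := by
  obtain ⟨x, ⟨l, hl⟩⟩ := v
  obtain ⟨l', hl', e, hr⟩ := reach_leaf hk x (s - l.length) l hl (by omega)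
  exact hr.tail (Or.inr ⟨e, hy, rfl⟩)

theorem strong {k s : ℕ} (hk : 1 ≤ k) (u v : Vtx k s) : ReflTransGen (D k s).Adj u v := by
  obtain ⟨y, ⟨l, hl⟩⟩ := v
  by_cases hy : y = u.1
  · obtain ⟨z, hz⟩ : ∃ z : Fin (k + 1), z ≠ u.1 := by
      have : Nontrivial (Fin (k + 1)) := Fin.nontrivial_iff_two_le.mpr (by omega)
      exact exists_ne _
    have h1 := reach_hub hk u z hz
    have h2 := reach_hub (s := s) hk (z, ⟨[], by simp⟩) y (by subst hy; exact hz.symm)
    exact (h1.trans h2).trans (reach_word y l hl)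
  · exact (reach_hub hk u y hy).trans (reach_word y l hl)

end Pool.Agent.H933R4.FAS
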